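import Pool.Agent.H23.Eq1

set_option autoImplicit false

namespace Pool.Agent.Results.MP_89a31a_co.Cex
open Finset Pool.Agent.H23.Eq

/-- `S` is an inclusion-maximal stable set -/
def MaxStable {V : Type} (G : SimpleGraph V) (S : Finset V) : Prop :=
  Maximal (fun s : Finset V => G.IsIndepSet (s : Set V)) S

/-- strongly equistable graphs -/
def StrEq {V : Type} (G : SimpleGraph V) : Prop :=
  ∀ T : Finset V, T.Nonempty → ¬ MaxStable G T → ∀ γ : ℝ, γ ≤ 1 → ∃ φ : V → ℝ, (∀ v, 0 < φ v) ∧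
    (∀ S, MaxStable G S → ∑ v ∈ S, φ v = 1) ∧ ∑ v ∈ T, φ v ≠ γ

/-- the graph `G` with the vertex `v` replaced by a copy of `H` joined to the neighbours of `v` -/
def subst {V W : Type} (G : SimpleGraph V) (v : V) (H : SimpleGraph W) :
    SimpleGraph ({x : V // x ≠ v} ⊕ W) where
  Adj
    | .inl x, .inl y => G.Adj x y
    | .inl x, .inr _ => G.Adj x v
    | .inr _, .inl y => G.Adj v y
    | .inr x, .inr y => H.Adj x y
  symm := ⟨by rintro (x | x) (y | y) h <;> exact h.symm⟩
  loopless := ⟨by rintro (x | x) h <;> exact h.ne rfl⟩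

def go3 (ad : ℕ → ℕ → Bool) (lf : List ℕ → Bool) : ℕ → List ℕ → Bool
  | 0, a => lf a
  | k + 1, a => go3 ad lf k a && (!a.all (ad k) || go3 ad lf k (k :: a))

theorem go3_ok {ad : ℕ → ℕ → Bool} {lf : List ℕ → Bool} (k : ℕ) : ∀ a, go3 ad lf k a = true →
    ∀ S ⊆ range k, (∀ x ∈ S, ∀ y ∈ a, ad x y = true) → (∀ x ∈ S, ∀ y ∈ S, x ≠ y → ad x y = true) →
      ∃ l : List ℕ, l.Nodup ∧ l.toFinset = S ∧ lf (l ++ a) = true := by
  induction k with
  | zero =>
    intro a h S s _ _
    exact ⟨[], by simp, (subset_empty.1 s).symm, h⟩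
  | succ k ih =>
    intro a h S s e1 e2
    simp only [go3, Bool.and_eq_true, Bool.or_eq_true, Bool.not_eq_true'] at h
    have q : S.erase k ⊆ range k := fun i b => by
      have := mem_range.1 (s (mem_erase.1 b).2)
      have := (mem_erase.1 b).1
      exact mem_range.2 (by omega)
    by_cases b : k ∈ S
    · obtain ⟨l, x, y, z⟩ := ih _ (h.2.resolve_left (by simpa using e1 k b)) _ q (fun x c y d => by
        obtain rfl | d := List.mem_cons.1 d
        exacts [e2 _ (mem_erase.1 c).2 _ b (mem_erase.1 c).1, e1 _ (mem_erase.1 c).2 _ d])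
        fun x c y d => e2 _ (mem_erase.1 c).2 _ (mem_erase.1 d).2
      have : k ∉ l := fun f => by simpa [y] using List.mem_toFinset.2 f
      refine ⟨l ++ [k], List.nodup_append_comm.1 (List.nodup_cons.2 ⟨this, x⟩), ?_, by simpa using z⟩
      simp [y, b]
    · rw [erase_eq_of_notMem b] at q
      exact ih _ h.1 _ q e1 e2

def ed (i : ℕ) : ℕ × ℕ := [(0, 1), (0, 5), (2, 5), (3, 5), (0, 6), (2, 6), (4, 6), (1, 7), (2, 7),
  (3, 7), (1, 8), (3, 8), (4, 8), (9, 10), (10, 11), (11, 12), (12, 13), (13, 14), (14, 15),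
  (15, 16), (9, 16), (9, 13), (10, 14), (11, 15), (12, 16), (4, 9)].getD i (17, 17)
def mem (j i : ℕ) : Bool := (ed i).1 == j || (ed i).2 == j
def adj (x y : ℕ) : Bool := mem (ed x).1 y || mem (ed x).2 y
def X (k i : ℕ) : ℕ := [90237539803157, 308208213693461, 22559400792449, 374127173129285,
  353033780334977, 44532386369921, 725694939468113, 2533640407908896, 462898695839765,
  637802984579093, 2621532347122256, 111330942276629, 375006781785425, 2621532344025728,
  747667912269893, 23438999770181, 2269964575179296, 352154184651845, 2533640401715840,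
  287114839278977].getD k 0 / 4 ^ i % 4
def ad (x y : ℕ) : Bool := decide (∀ k < (20 : ℕ), X k x + X k y ≤ 2)
def lf (a : List ℕ) : Bool := decide (a = [] ∨ (∃ k < (20 : ℕ), (a.map (X k)).sum ≠ (a.map (X 0)).sum) ∨
  2 < (a.map (X 0)).sum ∨ ∃ j < (17 : ℕ), ∀ i < (26 : ℕ), i ∈ a ↔ mem j i = true)

def G : SimpleGraph (Fin 26) where
  Adj x y := adj x y = false
  symm := ⟨by decide +kernel⟩
  loopless := ⟨by decide +kernel⟩

theorem mG (S : Finset (Fin 26)) : MaxStable G S ↔ ∃ j < 17, S = A mem 26 j :=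
  mx (adj := adj) (fun x y _ => by simp [G]) (by decide +kernel) (by decide +kernel)
    (by decide +kernel) S

theorem seG : StrEq G := fun T a b γ c => by
  by_contra! h
  have s : ∀ k < 20, ∀ j < 17, ∑ v ∈ A mem 26 j, X k v = 2 := by decide +kernel
  have s' : ∀ j < 17, ∑ v ∈ A mem 26 j, ∑ k ∈ range 20, X k v = 40 := by decide +kernel
  have p : ∀ v : Fin 26, 0 < ∑ k ∈ range 20, X k v := by decide +kernel
  have e : ∀ (y : Fin 26 → ℕ) (t : ℕ), 0 < t → (∀ v, 0 < y v) →
      (∀ j < 17, ∑ v ∈ A mem 26 j, y v = t) → ((∑ v ∈ T, y v : ℕ) : ℝ) = t * γ := fun y t d f g => by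
    have d' : (0 : ℝ) < t := by exact_mod_cast d
    have := h (fun v => y v / t) (fun v => div_pos (by exact_mod_cast f v) d') fun S i => by
      obtain ⟨j, l, rfl⟩ := (mG S).1 i
      rw [← sum_div, ← Nat.cast_sum, g j l, div_self d'.ne']
    rw [← this, ← sum_div, ← Nat.cast_sum]
    field_simp
  have f : ∀ k < 20, ((∑ v ∈ T, X k v : ℕ) : ℝ) = 2 * γ := fun k d => by
    have e1 := e _ 40 (by omega) p s'
    have e2 := e (fun v => X k v + ∑ k ∈ range 20, X k v) 42 (by omega)
      (fun v => Nat.add_pos_right _ (p v)) fun j i => by rw [sum_add_distrib, s k d j i, s' j i]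
    rw [sum_add_distrib, Nat.cast_add, e1] at e2
    push_cast at e2 ⊢
    linarith
  have g : ∀ k < 20, ∑ v ∈ T, X k v ≤ 2 := fun k d => by
    have : ((∑ v ∈ T, X k v : ℕ) : ℝ) ≤ (2 : ℕ) := by rw [f k d]; push_cast; linarith
    exact_mod_cast this
  obtain ⟨l, l1, l2, l3⟩ := go3_ok (ad := ad) (lf := lf) 26 [] (by decide +kernel)
    (T.map Fin.valEmbedding) (fun x c => by
      obtain ⟨y, -, rfl⟩ := mem_map.1 c
      exact mem_range.2 y.2) (by simp) fun x c y d i => decide_eq_true fun k j => by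
        have : ∑ v ∈ T.map Fin.valEmbedding, X k v ≤ 2 := by rw [sum_map]; exact g k j
        exact (add_le_sum (fun _ _ => Nat.zero_le _) c d i).trans this
  have q : ∀ k, (l.map (X k)).sum = ∑ v ∈ T, X k v := fun k => by
    rw [← List.sum_toFinset _ l1, l2, sum_map]; rfl
  simp only [lf, List.append_nil, q, decide_eq_true_eq] at l3
  obtain rfl | ⟨k, d, i⟩ | d | ⟨j, d, i⟩ := l3
  · exact a.ne_empty (map_eq_empty.1 l2.symm)
  · exact i (by exact_mod_cast (f k d).trans (f 0 (by omega)).symm)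
  · exact absurd (g 0 (by omega)) (by omega)
  · refine b ((mG T).2 ⟨j, d, ext fun x => ?_⟩)
    have := i x x.2
    rw [← List.mem_toFinset, l2] at this
    simpa [A, Fin.val_inj] using this

abbrev V' := {x : Fin 26 // x ≠ 0} ⊕ Fin 2

instance : DecidableRel (subst G 0 (⊤ : SimpleGraph (Fin 2))).Adj := fun x y => by
  rcases x with x | x <;> rcases y with y | y <;> simp only [subst, G, SimpleGraph.top_adj] <;>
    infer_instance

def B (j : ℕ) : Finset V' := univ.filter fun x =>
  Sum.elim (fun y => mem j y.1.val) (fun i => j == i.val) x = true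

set_option synthInstance.maxSize 2000 in
theorem bi : ∀ j < 9, ∀ x ∈ B j, ∀ y ∈ B j, ¬ (subst G 0 (⊤ : SimpleGraph (Fin 2))).Adj x y := by
  decide +kernel

def T' : Finset V' := {.inl ⟨25, by decide⟩, .inr 0, .inr 1}

theorem result : ∃ (n m : ℕ) (G : SimpleGraph (Fin n)) (H : SimpleGraph (Fin m)) (v : Fin n),
    0 < m ∧ StrEq G ∧ StrEq H ∧ ¬ StrEq (subst G v H) := by
  refine ⟨26, 2, G, ⊤, 0, two_pos, seG, fun T a b γ c => ?_, fun h => ?_⟩
  · have m : ∀ S : Finset (Fin 2), MaxStable ⊤ S ↔ S = {0} ∨ S = {1} := fun S =>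
      (mx (adj := fun _ _ => false) (mem := fun j i => j == i) (N := 2) (fun x y a => by simp [a])
        (by decide) (by decide) (by decide) S).trans (by revert S; decide)
    refine ⟨fun _ => 1, fun _ => one_pos, fun S d => by rcases (m S).1 d with rfl | rfl <;> simp, ?_⟩
    obtain rfl : T = {0, 1} := by
      rw [m] at b
      revert a b T
      decide
    simp
    linarith
  · obtain ⟨φ, -, a, b⟩ := h T' ⟨.inr 0, by decide⟩ (fun c => c.1 (x := .inr 0) (y := .inr 1)
      (mem_coe.2 (by decide)) (mem_coe.2 (by decide)) (by decide) (by decide)) 1 le_rfl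
    have s : ∀ j < 9, ∑ v ∈ B j, φ v = 1 := fun j c => a _ ⟨fun x d y e _ =>
      bi j c x d y e,
        fun S d e x f => by
          by_contra g
          obtain ⟨y, i, k⟩ := (by decide +kernel : ∀ j < 9, ∀ x, x ∉ B j → ∃ y ∈ B j,
            (subst G 0 ⊤).Adj x y) j c x g
          exact d f (e i) k.ne k⟩
    have e : ∀ S : Finset V', ∑ v ∈ S, φ v = ∑ v, (if v ∈ S then 1 else 0 : ℤ) * φ v := fun S => by
      simp
    refine b ?_
    have : ∑ v ∈ T', φ v = ∑ v ∈ B 0, φ v + ∑ v ∈ B 1, φ v + ∑ v ∈ B 2, φ v + ∑ v ∈ B 3, φ v +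
        ∑ v ∈ B 4, φ v - ∑ v ∈ B 5, φ v - ∑ v ∈ B 6, φ v - ∑ v ∈ B 7, φ v - ∑ v ∈ B 8, φ v := by
      simp only [e, ← sum_add_distrib, ← sum_sub_distrib, ← add_mul, ← sub_mul, ← Int.cast_add,
        ← Int.cast_sub]
      refine sum_congr rfl fun v _ => ?_
      congr 2
      revert v
      decide +kernel
    rw [this]
    simp only [s, Nat.reduceLT]
    norm_num

end Pool.Agent.Results.MP_89a31a_co.Cex
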